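import Pool.Agent.Helper19.SQ.GoalsH

/-!
Project SQ (MP_bb32d1_al), packet TRI: the spanning half of the triangular decomposition.
-/

namespace Pool.Agent.Helper95.SQ

open Pool.Agent.Helper19.SQ

noncomputable section

section words

variable {B : Type} [Ring B] [Algebra ℂ B] {N l : ℕ} {q : ℂ} {E F K : ℕ → B}

/-- a word in the `E i`. -/
def wd (E : ℕ → B) (u : List ℕ) : B := (u.map E).prod

theorem wd_nil (E : ℕ → B) : wd E [] = 1 := rfl

theorem wd_cons (E : ℕ → B) (i : ℕ) (u : List ℕ) : wd E (i :: u) = E i * wd E u := by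
  simp [wd]

theorem wd_append (E : ℕ → B) (u v : List ℕ) : wd E (u ++ v) = wd E u * wd E v := by
  simp [wd]

theorem K_wdF (h : GlRel N l q E F K) (j : ℕ) (u : List ℕ) :
    ∃ c : ℂ, K j * wd F u = c • (wd F u * K j) := by
  induction u with
  | nil => exact ⟨1, by simp [wd_nil]⟩
  | cons i u ih =>
    obtain ⟨c, hc⟩ := ih
    refine ⟨q ^ (-pr j i) * c, ?_⟩
    rw [wd_cons, ← mul_assoc, h.KF, smul_mul_assoc, mul_assoc, hc, mul_smul_comm, smul_smul,
      mul_assoc]

theorem wK_wdF (h : GlRel N l q E F K) (k : List ℕ) (u : List ℕ) :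
    ∃ c : ℂ, wd K k * wd F u = c • (wd F u * wd K k) := by
  induction k with
  | nil => exact ⟨1, by simp [wd_nil]⟩
  | cons j k ih =>
    obtain ⟨c, hc⟩ := ih
    obtain ⟨c', hc'⟩ := K_wdF h j u
    refine ⟨c * c', ?_⟩
    rw [wd_cons, mul_assoc, hc, mul_smul_comm, ← mul_assoc, hc', smul_mul_assoc, smul_smul,
      mul_assoc]

theorem E_wK (h : GlRel N l q E F K) (hq : q ≠ 0) (i : ℕ) (k : List ℕ) :
    ∃ c : ℂ, E i * wd K k = c • (wd K k * E i) := by
  induction k with
  | nil => exact ⟨1, by simp [wd_nil]⟩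
  | cons j k ih =>
    obtain ⟨c, hc⟩ := ih
    have h1 : E i * K j = (q ^ pr j i)⁻¹ • (K j * E i) := by
      rw [h.KE, smul_smul, inv_mul_cancel₀ (zpow_ne_zero _ hq), one_smul]
    refine ⟨(q ^ pr j i)⁻¹ * c, ?_⟩
    rw [wd_cons, ← mul_assoc, h1, smul_mul_assoc, mul_assoc, hc, mul_smul_comm, smul_smul,
      mul_assoc]

/-- the span of the products of a word in the `F` and a word in the `K`. -/
def TT (F K : ℕ → B) : Submodule ℂ B :=
  Submodule.span ℂ {y | ∃ u k : List ℕ, y = wd F u * wd K k}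

theorem TT_F (i : ℕ) {t : B} (ht : t ∈ TT F K) : F i * t ∈ TT F K := by
  refine Submodule.span_induction ?_ ?_ ?_ ?_ ht
  · rintro _ ⟨u, k, rfl⟩
    exact Submodule.subset_span ⟨i :: u, k, by rw [wd_cons, mul_assoc]⟩
  · rw [mul_zero]; exact zero_mem _
  · intro x y _ _ hx hy
    rw [mul_add]; exact add_mem hx hy
  · intro c x _ hx
    rw [mul_smul_comm]; exact Submodule.smul_mem _ _ hx

/-- the span of the words in the `K`. -/
def KK (K : ℕ → B) : Submodule ℂ B := Submodule.span ℂ {y | ∃ k : List ℕ, y = wd K k}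

theorem KK_F (h : GlRel N l q E F K) (u : List ℕ) {t : B} (ht : t ∈ KK K) :
    t * wd F u ∈ TT F K := by
  refine Submodule.span_induction ?_ ?_ ?_ ?_ ht
  · rintro _ ⟨k, rfl⟩
    obtain ⟨c, hc⟩ := wK_wdF h k u
    rw [hc]
    exact Submodule.smul_mem _ _ (Submodule.subset_span ⟨u, k, rfl⟩)
  · rw [zero_mul]; exact zero_mem _
  · intro x y _ _ hx hy
    rw [add_mul]; exact add_mem hx hy
  · intro c x _ hx
    rw [smul_mul_assoc]; exact Submodule.smul_mem _ _ hx

theorem comm_KK (h : GlRel N l q E F K) (i j : ℕ) : E i * F j - F j * E i ∈ KK K := by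
  by_cases hij : i = j
  · subst hij
    by_cases hi : i < N
    · rw [h.EF i hi]
      refine Submodule.smul_mem _ _ (sub_mem ?_ ?_)
      · refine Submodule.subset_span ⟨i :: List.replicate (l - 1) (i + 1), ?_⟩
        rw [wd_cons]
        simp [wd]
      · refine Submodule.subset_span ⟨List.replicate (l - 1) i ++ [i + 1], ?_⟩
        rw [wd_append]
        simp [wd]
    · rw [h.E_out i (not_lt.mp hi), zero_mul, mul_zero, sub_zero]
      exact zero_mem _
  · rw [h.EF_ne i j hij, sub_self]
    exact zero_mem _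

theorem E_wdF (h : GlRel N l q E F K) (i : ℕ) (u : List ℕ) :
    E i * wd F u - wd F u * E i ∈ TT F K := by
  induction u with
  | nil =>
    rw [wd_nil, mul_one, one_mul, sub_self]
    exact zero_mem _
  | cons j u ih =>
    have h1 : E i * wd F (j :: u) - wd F (j :: u) * E i =
        F j * (E i * wd F u - wd F u * E i) + (E i * F j - F j * E i) * wd F u := by
      rw [wd_cons]
      noncomm_ring
    rw [h1]
    exact add_mem (TT_F j ih) (KK_F h u (comm_KK h i j))

/-- the span of the triple products. -/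
def SS (E F K : ℕ → B) : Submodule ℂ B :=
  Submodule.span ℂ {y | ∃ u k v : List ℕ, y = wd F u * wd K k * wd E v}

theorem TT_SS (k v : List ℕ) {t : B} (ht : t ∈ TT F K) : t * wd K k * wd E v ∈ SS E F K := by
  refine Submodule.span_induction ?_ ?_ ?_ ?_ ht
  · rintro _ ⟨u, k', rfl⟩
    exact Submodule.subset_span ⟨u, k' ++ k, v, by rw [wd_append]; simp only [mul_assoc]⟩
  · rw [zero_mul, zero_mul]; exact zero_mem _
  · intro x y _ _ hx hy
    rw [add_mul, add_mul]; exact add_mem hx hy
  · intro c x _ hx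
    rw [smul_mul_assoc, smul_mul_assoc]; exact Submodule.smul_mem _ _ hx

theorem SS_mul {a : B} (ha : ∀ u k v : List ℕ, a * (wd F u * wd K k * wd E v) ∈ SS E F K) {t : B}
    (ht : t ∈ SS E F K) : a * t ∈ SS E F K := by
  refine Submodule.span_induction ?_ ?_ ?_ ?_ ht
  · rintro _ ⟨u, k, v, rfl⟩
    exact ha u k v
  · rw [mul_zero]; exact zero_mem _
  · intro x y _ _ hx hy
    rw [mul_add]; exact add_mem hx hy
  · intro c x _ hx
    rw [mul_smul_comm]; exact Submodule.smul_mem _ _ hx

theorem SS_F (i : ℕ) {t : B} (ht : t ∈ SS E F K) : F i * t ∈ SS E F K := by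
  refine SS_mul (fun u k v => ?_) ht
  exact Submodule.subset_span ⟨i :: u, k, v, by rw [wd_cons]; simp only [mul_assoc]⟩

theorem SS_K (h : GlRel N l q E F K) (j : ℕ) {t : B} (ht : t ∈ SS E F K) : K j * t ∈ SS E F K := by
  refine SS_mul (fun u k v => ?_) ht
  obtain ⟨c, hc⟩ := K_wdF h j u
  have h1 : K j * (wd F u * wd K k * wd E v) = c • (wd F u * wd K (j :: k) * wd E v) := by
    rw [← mul_assoc, ← mul_assoc, hc, wd_cons, smul_mul_assoc, smul_mul_assoc]
    simp only [mul_assoc]
  rw [h1]
  exact Submodule.smul_mem _ _ (Submodule.subset_span ⟨u, j :: k, v, rfl⟩)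

theorem SS_E (h : GlRel N l q E F K) (hq : q ≠ 0) (i : ℕ) {t : B} (ht : t ∈ SS E F K) :
    E i * t ∈ SS E F K := by
  refine SS_mul (fun u k v => ?_) ht
  obtain ⟨c, hc⟩ := E_wK h hq i k
  have h1 : E i * (wd F u * wd K k * wd E v) =
      (E i * wd F u - wd F u * E i) * wd K k * wd E v + c • (wd F u * wd K k * wd E (i :: v)) := by
    have h2 : wd F u * E i * wd K k * wd E v = c • (wd F u * wd K k * wd E (i :: v)) := by
      rw [mul_assoc (wd F u), hc, mul_smul_comm, smul_mul_assoc, wd_cons]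
      simp only [mul_assoc]
    rw [← h2]
    noncomm_ring
  rw [h1]
  exact add_mem (TT_SS k v (E_wdF h i u))
    (Submodule.smul_mem _ _ (Submodule.subset_span ⟨u, k, i :: v, rfl⟩))

theorem K_range (h : GlRel N l q E F K) (κ : ℕ → ℕ) (j n : ℕ) :
    K j * ((List.range n).map fun i => K i ^ κ i).prod =
      ((List.range n).map fun i => K i ^ κ i).prod * K j := by
  induction n with
  | zero => simp
  | succ n ih =>
    rw [List.range_succ, List.map_append, List.prod_append, ← mul_assoc, ih]
    simp only [List.map_cons, List.map_nil, List.prod_cons, List.prod_nil, mul_one]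
    rw [mul_assoc, mul_assoc]
    congr 1
    exact ((show Commute (K j) (K n) from h.K_comm j n).pow_right (κ n))

theorem K_kmon (h : GlRel N l q E F K) (κ : ℕ → ℕ) (j n : ℕ) (hj : j < n) :
    K j * ((List.range n).map fun i => K i ^ κ i).prod =
      ((List.range n).map fun i => K i ^ (if i = j then (κ i + 1) % l else κ i)).prod := by
  induction n with
  | zero => omega
  | succ n ih =>
    rw [List.range_succ, List.map_append, List.prod_append, List.map_append, List.prod_append]
    simp only [List.map_cons, List.map_nil, List.prod_cons, List.prod_nil, mul_one]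
    by_cases hjn : j = n
    · subst hjn
      rw [if_pos rfl, ← mul_assoc, K_range h κ j j, mul_assoc]
      have h1 : ((List.range j).map fun i => K i ^ κ i) =
          (List.range j).map fun i => K i ^ (if i = j then (κ i + 1) % l else κ i) := by
        refine List.map_congr_left fun i hi => ?_
        rw [List.mem_range] at hi
        rw [if_neg (by omega)]
      rw [h1]
      congr 1
      rw [← pow_succ']
      exact pow_eq_pow_mod _ (h.K_pow j)
    · rw [if_neg (fun h' => hjn h'.symm), ← mul_assoc, ih (by omega)]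

theorem wd_kmon (h : GlRel N l q E F K) (hl : 0 < l) (k : List ℕ) :
    ∃ κ : ℕ → ℕ, (∀ j, κ j < l) ∧ wd K k = kmon N K κ := by
  induction k with
  | nil =>
    refine ⟨fun _ => 0, fun _ => hl, ?_⟩
    rw [wd_nil]
    unfold kmon
    simp
  | cons j k ih =>
    obtain ⟨κ, hκ, hk⟩ := ih
    by_cases hj : j < N + 1
    · refine ⟨fun i => if i = j then (κ i + 1) % l else κ i, fun i => ?_, ?_⟩
      · by_cases hi : i = j
        · simp only [if_pos hi]
          exact Nat.mod_lt _ hl
        · simp only [if_neg hi]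
          exact hκ i
      · rw [wd_cons, hk]
        exact K_kmon h κ j (N + 1) hj
    · refine ⟨κ, hκ, ?_⟩
      rw [wd_cons, h.K_out j (by omega), one_mul, hk]

end words

theorem s_tri (hSPAN : S_SPAN) : S_TRI := by
  intro N l q hP x
  have h := glA N l q
  have hl0 : 0 < l := by have := hP.h3; omega
  have hq : q ≠ 0 := hP.prim.ne_zero (by omega)
  have hq2 : q ^ 2 ≠ 1 := hP.prim.pow_ne_one_of_pos_of_lt (by norm_num) (by have := hP.h3; omega)
  have hqm : q ^ 2 ≠ -1 := by
    intro h2
    have h4 : q ^ 4 = 1 := by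
      calc q ^ 4 = (q ^ 2) ^ 2 := by ring
        _ = 1 := by rw [h2]; norm_num
    have h5 : l ∣ 4 := hP.prim.dvd_of_pow_eq_one 4 h4
    have h6 := hP.h3
    have h7 := Nat.le_of_dvd (by norm_num) h5
    obtain ⟨m, hm⟩ := hP.odd
    interval_cases l
    · omega
    · omega
  -- everything is in `SS`
  have hS : ∀ a : A N l q, ∀ t ∈ SS (gE N l q) (gF N l q) (gK N l q),
      a * t ∈ SS (gE N l q) (gF N l q) (gK N l q) := by
    intro a
    refine A_induction (P := fun a => ∀ t ∈ SS (gE N l q) (gF N l q) (gK N l q),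
      a * t ∈ SS (gE N l q) (gF N l q) (gK N l q)) ?_ ?_ ?_ ?_ ?_ ?_ a
    · intro c t ht
      rw [← Algebra.smul_def]
      exact Submodule.smul_mem _ _ ht
    · intro i t ht
      exact SS_E h hq i ht
    · intro i t ht
      exact SS_F i ht
    · intro i t ht
      exact SS_K h i ht
    · intro a b ha hb t ht
      rw [add_mul]
      exact add_mem (ha t ht) (hb t ht)
    · intro a b ha hb t ht
      rw [mul_assoc]
      exact ha _ (hb t ht)
  have h1 : (1 : A N l q) ∈ SS (gE N l q) (gF N l q) (gK N l q) :=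
    Submodule.subset_span ⟨[], [], [], by simp [wd_nil]⟩
  have hx := hS x 1 h1
  rw [mul_one] at hx
  -- from words to monomials
  have hE : ∀ v : List ℕ, wd (gE N l q) v ∈
      Submodule.span ℂ {y | ∃ b : EX N l, y = mon N q (gE N l q) b.1} := by
    intro v
    refine Submodule.span_mono ?_
      (hSPAN (A N l q) N l q (gE N l q) hl0 hq hq2 hqm h.sE h.E_out h.pE v)
    rintro _ ⟨b, hb, _, rfl⟩
    exact ⟨⟨b, hb⟩, rfl⟩
  have hF : ∀ v : List ℕ, wd (gF N l q) v ∈
      Submodule.span ℂ {y | ∃ b : EX N l, y = mon N q (gF N l q) b.1} := by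
    intro v
    refine Submodule.span_mono ?_
      (hSPAN (A N l q) N l q (gF N l q) hl0 hq hq2 hqm h.sF h.F_out h.pF v)
    rintro _ ⟨b, hb, _, rfl⟩
    exact ⟨⟨b, hb⟩, rfl⟩
  refine Submodule.span_induction ?_ ?_ ?_ ?_ hx
  · rintro _ ⟨u, k, v, rfl⟩
    obtain ⟨κ, hκ, hk⟩ := wd_kmon h hl0 k
    rw [hk]
    refine Submodule.span_induction ?_ ?_ ?_ ?_ (hF u)
    · rintro _ ⟨a, rfl⟩
      refine Submodule.span_induction ?_ ?_ ?_ ?_ (hE v)
      · rintro _ ⟨b, rfl⟩
        exact Submodule.subset_span ⟨a, b, κ, hκ, rfl⟩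
      · rw [mul_zero]; exact zero_mem _
      · intro x y _ _ hx hy
        rw [mul_add]; exact add_mem hx hy
      · intro c x _ hx
        rw [mul_smul_comm]; exact Submodule.smul_mem _ _ hx
    · rw [zero_mul, zero_mul]; exact zero_mem _
    · intro x y _ _ hx hy
      rw [add_mul, add_mul]; exact add_mem hx hy
    · intro c x _ hx
      rw [smul_mul_assoc, smul_mul_assoc]; exact Submodule.smul_mem _ _ hx
  · exact zero_mem _
  · intro x y _ _ hx hy
    exact add_mem hx hy
  · intro c x _ hx
    exact Submodule.smul_mem _ _ hx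

end

end Pool.Agent.Helper95.SQ
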