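import Pool.Agent.Helper19.SQ.GoalsC

/-!
Project SQ (MP_bb32d1_al), second stage, packet FIN: the ring of diagonal coinvariants is
finite-dimensional.
-/

set_option autoImplicit false

namespace Pool.Agent.Helper95.SQ

noncomputable section

open Pool.Agent.Helper19.SQ MvPolynomial

/-- `∏_j (T - z_j)`. -/
def cp {n : ℕ} (v : Fin n → Fin n ⊕ Fin n) : Polynomial (Pn n) :=
  ∏ j, (Polynomial.X - Polynomial.C (X (v j) : Pn n))

theorem cp_monic {n : ℕ} (v : Fin n → Fin n ⊕ Fin n) : (cp v).Monic :=
  Polynomial.monic_prod_of_monic _ _ fun j _ => Polynomial.monic_X_sub_C _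

theorem cp_deg {n : ℕ} (v : Fin n → Fin n ⊕ Fin n) : (cp v).natDegree = n := by
  unfold cp
  rw [Polynomial.natDegree_prod_of_monic _ _ fun j _ => Polynomial.monic_X_sub_C _]
  simp

theorem cp_map {n : ℕ} (v : Fin n → Fin n ⊕ Fin n) (σ : Equiv.Perm (Fin n))
    (h : ∀ j, Sum.map σ σ (v j) = v (σ j)) :
    (cp v).map (rn σ : Pn n →+* Pn n) = cp v := by
  unfold cp
  rw [Polynomial.map_prod]
  rw [← Equiv.prod_comp σ (fun j => Polynomial.X - Polynomial.C (X (v j) : Pn n))]
  refine Finset.prod_congr rfl fun j _ => ?_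
  rw [Polynomial.map_sub, Polynomial.map_X, Polynomial.map_C]
  congr 2
  change rename (Sum.map σ σ) (X (v j)) = _
  rw [rename_X, h]

theorem cp_map0 {n : ℕ} (v : Fin n → Fin n ⊕ Fin n) :
    (cp v).map (constantCoeff : Pn n →+* ℂ) = Polynomial.X ^ n := by
  unfold cp
  rw [Polynomial.map_prod]
  simp

theorem pow_zero' {n : ℕ} (v : Fin n → Fin n ⊕ Fin n)
    (h : ∀ (σ : Equiv.Perm (Fin n)) (j : Fin n), Sum.map σ σ (v j) = v (σ j)) (k : Fin n) :
    (Ideal.Quotient.mk (dIdeal n) (X (v k))) ^ n = 0 := by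
  have h1 : (cp v).eval (X (v k)) = 0 := by
    unfold cp
    rw [Polynomial.eval_prod]
    exact Finset.prod_eq_zero (Finset.mem_univ k) (by simp)
  rw [Polynomial.eval_eq_sum_range, cp_deg, Finset.sum_range_succ] at h1
  have h2 : (cp v).coeff n = 1 := by
    have := (cp_monic v).coeff_natDegree
    rwa [cp_deg] at this
  have h3 := congrArg (Ideal.Quotient.mk (dIdeal n)) h1
  rw [map_add, map_sum, map_zero, h2, one_mul, map_pow] at h3
  have h4 : ∑ i ∈ Finset.range n,
      Ideal.Quotient.mk (dIdeal n) ((cp v).coeff i * X (v k) ^ i) = 0 := by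
    refine Finset.sum_eq_zero fun i hi => ?_
    have hi' := Finset.mem_range.1 hi
    rw [map_mul]
    have h5 : (cp v).coeff i ∈ dIdeal n := by
      refine Ideal.subset_span ⟨fun σ => ?_, ?_⟩
      · have := congrArg (fun p => Polynomial.coeff p i) (cp_map v σ (h σ))
        simp only [Polynomial.coeff_map] at this
        exact this
      · have := congrArg (fun p => Polynomial.coeff p i) (cp_map0 v)
        simp only [Polynomial.coeff_map, Polynomial.coeff_X_pow] at this
        rw [this, if_neg (by omega)]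
    rw [Ideal.Quotient.eq_zero_iff_mem.2 h5, zero_mul]
  rw [h4, zero_add] at h3
  exact h3

theorem isInt {n : ℕ} (i : Fin n ⊕ Fin n) :
    IsIntegral ℂ (Ideal.Quotient.mk (dIdeal n) (X i)) := by
  rcases i with k | k
  · have hn : 0 < n := Fin.pos k
    refine IsIntegral.of_pow hn ?_
    rw [pow_zero' (fun j => Sum.inl j) (fun σ j => rfl) k]
    exact isIntegral_zero
  · have hn : 0 < n := Fin.pos k
    refine IsIntegral.of_pow hn ?_
    rw [pow_zero' (fun j => Sum.inr j) (fun σ j => rfl) k]
    exact isIntegral_zero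

/-- **FIN** -/
theorem s_fin : Pool.Agent.Helper19.SQ.S_FIN := by
  intro n
  have hint : Algebra.IsIntegral ℂ (DR n) := by
    refine ⟨fun x => ?_⟩
    obtain ⟨p, rfl⟩ := Ideal.Quotient.mk_surjective x
    induction p using MvPolynomial.induction_on with
    | C a => exact isIntegral_algebraMap (R := ℂ) (A := DR n) (x := a)
    | add p q hp hq => rw [map_add]; exact hp.add hq
    | mul_X p i hp => rw [map_mul]; exact hp.mul (isInt i)
  have hft : Algebra.FiniteType ℂ (DR n) := inferInstance
  exact Algebra.finite_iff_isIntegral_and_finiteType.2 ⟨hint, hft⟩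

end

end Pool.Agent.Helper95.SQ
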