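import Pool.Agent.Helper4.SQ.GoalsR2

/-!
Project SQ (MP_bb32d1_al), stage B, packet CHI.
-/

set_option autoImplicit false
set_option linter.unusedSectionVars false

namespace Pool.Agent.Helper95.SQ

noncomputable section

open Pool.Agent.Helper19.SQ Pool.Agent.Helper34.SQ Pool.Agent.Helper41.SQ Pool.Agent.Helper4.SQ

variable {N l : ℕ} {q : ℂ}

/-- the torus preserves the left ideal. -/
theorem jl_le (hl : l ≠ 0) (s : ℕ → ℂˣ) (lam : Fin (N + 1) → ZMod l) (a : A N l q)
    (ha : a ∈ Jl q lam) : tor N l q hl s a ∈ Jl q lam := by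
  unfold Jl at ha
  induction ha using Submodule.span_induction with
  | mem x hx =>
    rcases hx with ⟨i, rfl⟩ | ⟨j, rfl⟩
    · rw [tor_E]
      have h1 : gE N l q i ∈ Jl q lam := Submodule.subset_span (Or.inl ⟨i, rfl⟩)
      have h2 := (Jl q lam).smul_mem
        (algebraMap ℂ (A N l q) ((s i : ℂ) * (s (i + 1) : ℂ)⁻¹)) h1
      rwa [smul_eq_mul, ← Algebra.smul_def] at h2
    · have h1 : gK N l q j - algebraMap ℂ (A N l q) (qz q (lam j)) ∈ Jl q lam :=
        Submodule.subset_span (Or.inr ⟨j, rfl⟩)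
      have e : tor N l q hl s (gK N l q j - algebraMap ℂ (A N l q) (qz q (lam j)))
          = gK N l q j - algebraMap ℂ (A N l q) (qz q (lam j)) := by
        rw [map_sub, tor_K, AlgHom.commutes]
      change tor N l q hl s (gK N l q j - algebraMap ℂ (A N l q) (qz q (lam j))) ∈ _
      rw [e]; exact h1
  | zero => rw [map_zero]; exact (Jl q lam).zero_mem
  | add x y _ _ hx hy => rw [map_add]; exact (Jl q lam).add_mem hx hy
  | smul r x _ hx =>
    rw [smul_eq_mul, map_mul]
    exact (Jl q lam).smul_mem _ hx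

/-- the induced map of `Z(lam)`. -/
def th (hl : l ≠ 0) (s : ℕ → ℂˣ) (lam : Fin (N + 1) → ZMod l) :
    Zl (N := N) q lam →ₗ[ℂ] Zl (N := N) q lam where
  toFun := Submodule.mapQ (Jl q lam) (Jl q lam)
    (τ₁₂ := (tor N l q hl s : A N l q →+* A N l q))
    { toFun := tor N l q hl s
      map_add' := map_add _
      map_smul' := fun a b => by
        rw [smul_eq_mul, map_mul]; rfl }
    (fun a ha => jl_le hl s lam a ha)
  map_add' := map_add _
  map_smul' c z := by
    obtain ⟨a, rfl⟩ := Submodule.Quotient.mk_surjective (Jl q lam) z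
    change (Submodule.Quotient.mk (tor N l q hl s (c • a)) : A N l q ⧸ Jl q lam)
      = c • (Submodule.Quotient.mk (tor N l q hl s a) : A N l q ⧸ Jl q lam)
    rw [map_smul]
    rfl

theorem th_mk (hl : l ≠ 0) (s : ℕ → ℂˣ) (lam : Fin (N + 1) → ZMod l) (a : A N l q) :
    th hl s lam (Submodule.Quotient.mk a : A N l q ⧸ Jl q lam)
      = (Submodule.Quotient.mk (tor N l q hl s a) : A N l q ⧸ Jl q lam) := rfl

theorem th_smul (hl : l ≠ 0) (s : ℕ → ℂˣ) (lam : Fin (N + 1) → ZMod l) (a : A N l q)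
    (z : Zl (N := N) q lam) : th hl s lam (a • z) = tor N l q hl s a • th hl s lam z := by
  obtain ⟨b, rfl⟩ := Submodule.Quotient.mk_surjective (Jl q lam) z
  change (Submodule.Quotient.mk (tor N l q hl s (a * b)) : A N l q ⧸ Jl q lam)
    = tor N l q hl s a • (Submodule.Quotient.mk (tor N l q hl s b) : A N l q ⧸ Jl q lam)
  rw [map_mul]
  rfl

theorem th_th (hT : S_TOI) (hl : l ≠ 0) (s : ℕ → ℂˣ) (lam : Fin (N + 1) → ZMod l)
    (z : Zl (N := N) q lam) : th hl s lam (th hl s⁻¹ lam z) = z := by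
  obtain ⟨b, rfl⟩ := Submodule.Quotient.mk_surjective (Jl q lam) z
  change (Submodule.Quotient.mk (tor N l q hl s (tor N l q hl s⁻¹ b)) : A N l q ⧸ Jl q lam)
    = Submodule.Quotient.mk b
  rw [hT]

theorem th_th' (hT : S_TOI) (hl : l ≠ 0) (s : ℕ → ℂˣ) (lam : Fin (N + 1) → ZMod l)
    (z : Zl (N := N) q lam) : th hl s⁻¹ lam (th hl s lam z) = z := by
  have h := th_th hT hl s⁻¹ lam z
  rwa [inv_inv] at h

/-- the induced automorphism. -/
def the (hT : S_TOI) (hl : l ≠ 0) (s : ℕ → ℂˣ) (lam : Fin (N + 1) → ZMod l) :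
    Zl (N := N) q lam ≃ₗ[ℂ] Zl (N := N) q lam :=
  { th hl s lam with
    invFun := th hl s⁻¹ lam
    left_inv := th_th' hT hl s lam
    right_inv := th_th hT hl s lam }

/-- **CHI** -/
theorem sCHI (hZ : S_ZUNIV) (hT : S_TOI) : S_CHI := by
  intro N l _ q hl s D C hS lam
  obtain ⟨hfd, hsing, hspan, -⟩ := hZ N l q hS.par hS.fd lam
  refine ⟨fun x y => chiL_mul_comm _ x y, fun x => ?_, fun x => ?_⟩
  · rw [hS.c0.φ, one_mul]
    change LinearMap.trace ℂ (Zl q lam) (lsmA (Zl q lam) (tor N l q hl s x))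
      = LinearMap.trace ℂ (Zl q lam) (lsmA (Zl q lam) x)
    have e : lsmA (Zl q lam) (tor N l q hl s x)
        = (the hT hl s lam).conj (lsmA (Zl q lam) x) := by
      ext z
      rw [LinearEquiv.conj_apply_apply]
      change tor N l q hl s x • z = th hl s lam (x • th hl s⁻¹ lam z)
      rw [th_smul, th_th hT]
    rw [e, LinearMap.trace_conj']
  · change LinearMap.trace ℂ (Zl q lam) (lsmA (Zl q lam) (x * C.e _))
      = LinearMap.trace ℂ (Zl q lam) (lsmA (Zl q lam) x)
    congr 1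
    ext z
    have hz : z ∈ Submodule.span (A N l q) {zgen q lam} := by rw [hspan]; trivial
    obtain ⟨a, rfl⟩ := Submodule.mem_span_singleton.1 hz
    rw [lsmA_apply, lsmA_apply, mul_smul, smul_smul (C.e _) a, C.e_cen, mul_smul a,
      hS.ev _ lam _ _ hsing, if_pos rfl]

end

end Pool.Agent.Helper95.SQ
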