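import Pool.Agent.Helper4.SQ.GoalsL

/-!
Project SQ (MP_bb32d1_al), stage B, packet LOOP.
-/

set_option autoImplicit false
set_option linter.unusedSectionVars false

namespace Pool.Agent.Helper95.SQ

noncomputable section

open Pool.Agent.Helper19.SQ Pool.Agent.Helper4.SQ

theorem zne {l : ℕ} [NeZero l] (hl : 5 ≤ l) (x : ℤ) (h0 : x ≠ 0) (h1 : |x| < 5) :
    (x : ZMod l) ≠ 0 := by
  intro h
  rw [ZMod.intCast_zmod_eq_zero_iff_dvd] at h
  have h2 := Int.le_of_dvd (abs_pos.2 h0) ((dvd_abs _ _).2 h)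
  have h3 : (5 : ℤ) ≤ l := by exact_mod_cast hl
  omega

theorem exists_third {l : ℕ} [NeZero l] (hl : 5 ≤ l) (a b : ZMod l) : ∃ c, c ≠ a ∧ c ≠ b := by
  have h : ({a, b} : Finset (ZMod l)).card < (Finset.univ : Finset (ZMod l)).card := by
    rw [Finset.card_univ, ZMod.card]
    have := Finset.card_le_two (a := a) (b := b)
    omega
  obtain ⟨c, -, hc⟩ := Finset.exists_mem_notMem_of_card_lt_card h
  simp only [Finset.mem_insert, Finset.mem_singleton, not_or] at hc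
  exact ⟨c, hc.1, hc.2⟩

theorem isFam_zero {I : Type} [DecidableEq I] {L : Type} [LieRing L] [LieAlgebra ℂ L]
    (G : GLd I L) : IsFam G (fun _ _ => 0) where
  rel x y c d _ _ _ := by simp
  wt z c d _ := by simp
  diag a := rfl

/-- **LOOP** -/
theorem sLOOP (hMU : S_MU) (hLF1 : S_LF1) (hLF2 : S_LF2) (hLF3 : S_LF3) (hPR : S_PR)
    (hFEQ : S_FEQ) (hKK : S_KK) : S_LOOP := by
  intro l _ V _ _ T hl
  obtain ⟨G, hGh, hGe⟩ := hMU l V T (by omega)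
  have hcard : Fintype.card (ZMod l) = l := ZMod.card l
  have n1 : (1 : ZMod l) ≠ 0 := by
    have := zne hl 1 (by norm_num) (by norm_num); simpa using this
  have n2 : (2 : ZMod l) ≠ 0 := by
    have := zne hl 2 (by norm_num) (by norm_num); simpa using this
  have n01 : (0 : ZMod l) ≠ 1 := n1.symm
  have n12 : (1 : ZMod l) ≠ 2 := fun h => n1 (by linear_combination -h)
  have n02 : (0 : ZMod l) ≠ 2 := n2.symm
  have m0 : (0 : ZMod l) ≠ -1 := fun h => n1 (by linear_combination h)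
  have m1 : (1 : ZMod l) ≠ -1 := fun h => n2 (by linear_combination h)
  have p0 : (0 : ZMod l) ≠ -1 - 1 := fun h => n2 (by linear_combination h)
  have p1 : (-1 : ZMod l) ≠ -1 - 1 := fun h => n1 (by linear_combination h)
  choose P hP hPe using fun r => (hLF1 l V T hl G hGh hGe r).1
  choose Q hQ hQe using fun r => (hLF1 l V T hl G hGh hGe r).2.1
  choose Z hZ hZe using fun r => (hLF1 l V T hl G hGh hGe r).2.2
  obtain ⟨⟨zz, zu, zw, uu, ww, uw⟩, ⟨h1, h2⟩, h3, h4, h5⟩ :=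
    hLF3 l V T hl G hGh hGe (P 0) (Q 0) (hP 0) (hQ 0) (hPe 0) (hQe 0) Z hZ hZe
  have hc5 : 5 ≤ Fintype.card (ZMod l) := by omega
  have feq : ∀ {U U' : ZMod l → ZMod l → Module.End ℂ V}, IsFam G U → IsFam G U' →
      ∀ a b, a ≠ b → U a b = U' a b → U = U' := fun hU hU' a b hab h =>
    (hFEQ (ZMod l) (Module.End ℂ V) G (by omega) _ hU).1 _ hU' a b hab h
  have sym : ∀ {U W : ZMod l → ZMod l → Module.End ℂ V}, IsFam G U → IsFam G W →
      ZRel U W → ZRel W U := fun hU hW h =>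
    (hPR (ZMod l) (Module.End ℂ V) G hc5 _ _ hU hW h).2.1
  have prod : ∀ {X Y C : ZMod l → ZMod l → Module.End ℂ V}, IsFam G X → IsFam G Y →
      IsFam G C → ZRel X Y → ∀ a b c, a ≠ b → b ≠ c → a ≠ c → ⁅X a b, Y b c⁆ = C a c →
      ∀ a b c, a ≠ b → b ≠ c → a ≠ c → ⁅X a b, Y b c⁆ = C a c := by
    intro X Y C hX hY hC hXY a0 b0 c0 k1 k2 k3 h a b c k4 k5 k6
    obtain ⟨A, hA, hAe⟩ := (hPR (ZMod l) (Module.End ℂ V) G hc5 _ _ hX hY hXY).1
    have e : A = C := feq hA hC a0 c0 k3 (by rw [← hAe a0 b0 c0 k1 k2 k3, h])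
    rw [hAe a b c k4 k5 k6, e]
  -- the unit family
  obtain ⟨M0, _, f0, -, hf0, -, -, hone, -⟩ :=
    hKK (ZMod l) (Module.End ℂ V) G hc5 ∅ (by simp) (by simp) (by simp)
  have hO : IsFam G (f0 1) := hf0 1
  -- products
  have c1 : ∀ r s, ∀ a b c, a ≠ b → b ≠ c → a ≠ c → ⁅Z r a b, Z s b c⁆ = Z (r + s) a c :=
    fun r s => prod (hZ r) (hZ s) (hZ (r + s)) (zz r s) 0 1 2 n01 n12 n02 (h3 r s)
  have c2 : ∀ r, ∀ a b c, a ≠ b → b ≠ c → a ≠ c → ⁅Z r a b, P 0 b c⁆ = P r a c :=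
    fun r => prod (hZ r) (hP 0) (hP r) (zu r) 1 0 (-1) n1 m0 m1 (h4 r (P r) (hP r) (hPe r)).1.symm
  have c3 : ∀ r, ∀ a b c, a ≠ b → b ≠ c → a ≠ c → ⁅P 0 a b, Z r b c⁆ = P r a c :=
    fun r => prod (hP 0) (hZ r) (hP r) (sym (hZ r) (hP 0) (zu r)) 0 (-1) (-1 - 1) m0 p1 p0
      (h4 r (P r) (hP r) (hPe r)).2.symm
  have c4 : ∀ r, ∀ a b c, a ≠ b → b ≠ c → a ≠ c → ⁅Z r a b, Q 0 b c⁆ = Q r a c :=
    fun r => prod (hZ r) (hQ 0) (hQ r) (zw r) (-1 - 1) (-1) 0 p1.symm m0.symm p0.symm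
      (h5 r (Q r) (hQ r) (hQe r)).1.symm
  have c5 : ∀ r, ∀ a b c, a ≠ b → b ≠ c → a ≠ c → ⁅Q 0 a b, Z r b c⁆ = Q r a c :=
    fun r => prod (hQ 0) (hZ r) (hQ r) (sym (hZ r) (hQ 0) (zw r)) (-1) 0 1 m0.symm n01 m1.symm
      (h5 r (Q r) (hQ r) (hQe r)).2.symm
  have c6 : ∀ a b c, a ≠ b → b ≠ c → a ≠ c → ⁅P 0 a b, Q 0 b c⁆ = f0 1 a c :=
    prod (hP 0) (hQ 0) hO uw 0 (-1) 1 m0 m1.symm n01 (by rw [h1, hone 0 1 n01])
  have c7 : ∀ a b c, a ≠ b → b ≠ c → a ≠ c → ⁅Q 0 a b, P 0 b c⁆ = f0 1 a c :=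
    prod (hQ 0) (hP 0) hO (sym (hP 0) (hQ 0) uw) (-1) 0 1 m0.symm n01 m1.symm
      (by rw [h2, hone (-1) 1 m1.symm])
  obtain ⟨M, _, f, finj, hf, hfz, hmul, hone', hS⟩ :=
    hKK (ZMod l) (Module.End ℂ V) G hc5 {X | (∃ r, X = Z r) ∨ X = P 0 ∨ X = Q 0}
      (by
        rintro X (⟨r, rfl⟩ | rfl | rfl)
        · exact hZ r
        · exact hP 0
        · exact hQ 0)
      (by
        rintro X (⟨r, rfl⟩ | rfl | rfl) Y (⟨s, rfl⟩ | rfl | rfl)
        · exact zz r s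
        · exact zu r
        · exact zw r
        · exact sym (hZ s) (hP 0) (zu s)
        · exact uu
        · exact uw
        · exact sym (hZ s) (hQ 0) (zw s)
        · exact sym (hP 0) (hQ 0) uw
        · exact ww)
      (by
        rintro X (⟨r, rfl⟩ | rfl | rfl) Y (⟨s, rfl⟩ | rfl | rfl) a b c k1 k2 k3
        · rw [c1 r s a b c k1 k2 k3, c1 s r a b c k1 k2 k3, add_comm]
        · rw [c2 r a b c k1 k2 k3, c3 r a b c k1 k2 k3]
        · rw [c4 r a b c k1 k2 k3, c5 r a b c k1 k2 k3]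
        · rw [c2 s a b c k1 k2 k3, c3 s a b c k1 k2 k3]
        · rfl
        · rw [c6 a b c k1 k2 k3, c7 a b c k1 k2 k3]
        · rw [c4 s a b c k1 k2 k3, c5 s a b c k1 k2 k3]
        · rw [c6 a b c k1 k2 k3, c7 a b c k1 k2 k3]
        · rfl)
  choose ζ hζ using fun r => hS (Z r) (Or.inl ⟨r, rfl⟩)
  obtain ⟨υ, hυ⟩ := hS (P 0) (Or.inr (Or.inl rfl))
  obtain ⟨ω, hω⟩ := hS (Q 0) (Or.inr (Or.inr rfl))
  have zmul : ∀ r s, ζ r * ζ s = ζ (r + s) := by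
    intro r s
    apply finj
    apply feq (hf _) (hf _) 0 2 n02
    rw [← hmul _ _ 0 1 2 n01 n12 n02, hζ, hζ, hζ, h3]
  have zone : ζ 0 = 1 := by
    apply finj
    apply feq (hf _) (hf _) 0 1 n01
    rw [hζ, hone' 0 1 n01, hZe]
    have := (hGe 0 m0).1
    rw [zero_add] at this
    exact this.symm
  have uwo : υ * ω = 1 := by
    apply finj
    apply feq (hf _) (hf _) 0 1 n01
    rw [← hmul _ _ 0 (-1) 1 m0 m1.symm n01, hυ, hω, h1, hone' 0 1 n01]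
  let t : Mˣ := ⟨υ, ω, uwo, by rw [mul_comm, uwo]⟩
  have hPr : ∀ r, f (ζ r * υ) = P r := by
    intro r
    apply feq (hf _) (hP r) 1 (-1) m1
    rw [← hmul _ _ 1 0 (-1) n1 m0 m1, hζ, hυ, c2 r 1 0 (-1) n1 m0 m1]
  have hQr : ∀ r, f (ζ r * ω) = Q r := by
    intro r
    apply feq (hf _) (hQ r) (-1 - 1) 0 p0.symm
    rw [← hmul _ _ (-1 - 1) (-1) 0 p1.symm m0.symm p0.symm, hζ, hω,
      c4 r (-1 - 1) (-1) 0 p1.symm m0.symm p0.symm]
  refine ⟨{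
    e := fun a b r s => f (ζ r * ((t ^ s : Mˣ) : M)) a b
    mul := ?_
    com := ?_
    wt := ?_
    sl := ?_
    E_eq := ?_
    F_eq := ?_
    Ez_eq := ?_
    Fz_eq := ?_
    nil := ?_ }⟩
  · intro a b c r s r' s' k1 k2 k3
    rw [hmul _ _ a b c k1 k2 k3, mul_mul_mul_comm, zmul, ← Units.val_mul, ← zpow_add]
  · intro a b c d r s r' s' k1 k2 k3 k4
    exact hfz _ _ a b c d k1 k2 k3 k4
  · intro x a b r s k
    have := (hf (ζ r * ((t ^ s : Mˣ) : M))).wt x a b k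
    rwa [hGh] at this
  · intro a b k
    have e : ∀ a b, a ≠ b → f (ζ 0 * ((t ^ (0 : ℤ) : Mˣ) : M)) a b = G.e a b := by
      intro a b k
      rw [zone, zpow_zero, Units.val_one, mul_one, hone' a b k]
    rw [e a b k, e b a k.symm, G.gl, if_pos rfl, if_pos rfl, hGh, hGh]
  · intro c r k
    rw [zpow_zero, Units.val_one, mul_one, hζ]
    exact (hLF2 l V T hl G hGh hGe r (Z r) (hZ r) (hZe r) c k).1
  · intro c r k
    rw [zpow_zero, Units.val_one, mul_one, hζ]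
    exact (hLF2 l V T hl G hGh hGe r (Z r) (hZ r) (hZe r) c k).2
  · intro r
    have e : ((t ^ (-1 : ℤ) : Mˣ) : M) = ω := by rw [zpow_neg_one]; rfl
    rw [e, hQr, hQe]
  · intro r
    have e : ((t ^ (1 : ℤ) : Mˣ) : M) = υ := by rw [zpow_one]
    rw [e, hPr, hPe]
  · intro K hK a b r s k hr
    obtain ⟨c, k1, k2⟩ := exists_third hl a b
    have hz : Z r = fun _ _ => 0 :=
      feq (hZ r) (isFam_zero G) 0 1 n01 (by rw [hZe, hK r hr])
    rw [← hmul _ _ a c b k1.symm k2 k, hζ, hz]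
    exact zero_lie _

end

end Pool.Agent.Helper95.SQ
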